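import Mathlib

set_option autoImplicit false

open Matrix

namespace Pool.Agent.Results.MP_dd2eb3_al.SmallOrTriangular

variable {F : Type*} [Field F]

/-- a cyclic vector forces minimal polynomial = characteristic polynomial -/
lemma cyc {n : ℕ} (M : Matrix (Fin n) (Fin n) F) (v : Fin n → F)
    (h : LinearIndependent F (fun i : Fin n => (M ^ (i : ℕ)) *ᵥ v)) :
    minpoly F M = M.charpoly := by
  have hint : IsIntegral F M := Matrix.isIntegral M
  have hmon := minpoly.monic hint
  symm
  refine Polynomial.eq_of_monic_of_dvd_of_natDegree_le hmon M.charpoly_monic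
    (Matrix.minpoly_dvd_charpoly M) ?_
  rw [Matrix.charpoly_natDegree_eq_dim, Fintype.card_fin]
  by_contra hlt
  push Not at hlt
  have h0 : Polynomial.aeval M (minpoly F M) = 0 := minpoly.aeval F M
  rw [Polynomial.aeval_eq_sum_range' hlt] at h0
  have h1 : ∑ i : Fin n, (minpoly F M).coeff i • ((M ^ (i : ℕ)) *ᵥ v) = 0 := by
    have h2 : (∑ i ∈ Finset.range n, (minpoly F M).coeff i • M ^ i) *ᵥ v = 0 := by
      rw [h0, Matrix.zero_mulVec]
    rw [Matrix.sum_mulVec, Finset.sum_range] at h2
    simpa only [Matrix.smul_mulVec] using h2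
  have h3 := (Fintype.linearIndependent_iff.1 h) _ h1 ⟨(minpoly F M).natDegree, hlt⟩
  have h4 : (minpoly F M).coeff (minpoly F M).natDegree = 1 := hmon
  simp only at h3
  rw [h4] at h3
  exact one_ne_zero h3

lemma minors (x0 x1 x2 y0 y1 y2 : F)
    (h1 : x0 * (x0 * y1 - x1 * y0) + y0 * (x0 * y2 - x2 * y0) = 0)
    (h2 : x0 * (x0 * y2 - x2 * y0) + y0 * (x0 * y1 - x1 * y0) = 0)
    (h3 : x1 * (x1 * y0 - x0 * y1) + y1 * (x1 * y2 - x2 * y1) = 0)
    (h4 : x1 * (x1 * y2 - x2 * y1) + y1 * (x1 * y0 - x0 * y1) = 0)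
    (h5 : x2 * (x2 * y0 - x0 * y2) + y2 * (x2 * y1 - x1 * y2) = 0)
    (h6 : x2 * (x2 * y1 - x1 * y2) + y2 * (x2 * y0 - x0 * y2) = 0) :
    x0 * y1 - x1 * y0 = 0 := by
  by_contra hne
  have e0 : (x0 - y0) * (x0 + y0) = 0 := by
    have : (x0 * y1 - x1 * y0) * ((x0 - y0) * (x0 + y0)) = 0 := by
      linear_combination x0 * h1 - y0 * h2
    exact (mul_eq_zero.1 this).resolve_left hne
  have e1 : (x1 - y1) * (x1 + y1) = 0 := by
    have : (x0 * y1 - x1 * y0) * ((x1 - y1) * (x1 + y1)) = 0 := by
      linear_combination -x1 * h3 + y1 * h4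
    exact (mul_eq_zero.1 this).resolve_left hne
  grind

/-- the Krylov determinant of the first basis vector -/
lemma krylov3 (M : Matrix (Fin 3) (Fin 3) F)
    (h : M 1 0 * (M 1 0 * M 2 1 - M 1 1 * M 2 0) + M 2 0 * (M 1 0 * M 2 2 - M 1 2 * M 2 0) ≠ 0) :
    minpoly F M = M.charpoly := by
  apply cyc M (Pi.single 0 1)
  let K : Matrix (Fin 3) (Fin 3) F := Matrix.of fun i => (M ^ (i : ℕ)) *ᵥ (Pi.single 0 1)
  have hK : K.det ≠ 0 := by
    intro h0
    apply h
    rw [← h0, Matrix.det_fin_three]
    simp [K, pow_two, Matrix.mul_apply, Fin.sum_univ_three]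
    ring
  exact Matrix.linearIndependent_rows_of_det_ne_zero hK

lemma mul_perm_apply {n : ℕ} (A : Matrix (Fin n) (Fin n) F) (σ : Equiv.Perm (Fin n))
    (i j : Fin n) : (A * σ⁻¹.permMatrix F) i j = A i (σ j) := by
  rw [Matrix.mul_apply, Finset.sum_eq_single (σ j)]
  · simp [Equiv.Perm.permMatrix, PEquiv.toMatrix_apply]
  · intro b _ hb
    have : σ⁻¹ b ≠ j := fun h => hb (by rw [← h]; simp)
    simp [Equiv.Perm.permMatrix, PEquiv.toMatrix_apply]
    exact fun h => absurd h this
  · simp

lemma case3 (A : Matrix (Fin 3) (Fin 3) F) (hA : A.det ≠ 0) :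
    ∃ σ : Equiv.Perm (Fin 3), minpoly F (A * σ.permMatrix F) = (A * σ.permMatrix F).charpoly := by
  by_contra hcon
  push Not at hcon
  have key : ∀ σ : Equiv.Perm (Fin 3),
      A 1 (σ 0) * (A 1 (σ 0) * A 2 (σ 1) - A 1 (σ 1) * A 2 (σ 0)) +
      A 2 (σ 0) * (A 1 (σ 0) * A 2 (σ 2) - A 1 (σ 2) * A 2 (σ 0)) = 0 := by
    intro σ
    by_contra hne
    apply hcon σ⁻¹
    apply krylov3
    simpa only [mul_perm_apply] using hne
  have k1 := key 1
  have k2 := key (Equiv.swap 1 2)
  have k3 := key (Equiv.swap 0 1)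
  have k4 := key (Equiv.swap 0 1 * Equiv.swap 1 2)
  have k5 := key (Equiv.swap 0 2)
  have k6 := key (Equiv.swap 0 2 * Equiv.swap 1 2)
  have s1 : (Equiv.swap (1 : Fin 3) 2) 0 = 0 := by decide
  have s2 : (Equiv.swap (1 : Fin 3) 2) 1 = 2 := by decide
  have s3 : (Equiv.swap (1 : Fin 3) 2) 2 = 1 := by decide
  have s4 : (Equiv.swap (0 : Fin 3) 1) 0 = 1 := by decide
  have s5 : (Equiv.swap (0 : Fin 3) 1) 1 = 0 := by decide
  have s6 : (Equiv.swap (0 : Fin 3) 1) 2 = 2 := by decide
  have s7 : (Equiv.swap (0 : Fin 3) 2) 0 = 2 := by decide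
  have s8 : (Equiv.swap (0 : Fin 3) 2) 1 = 1 := by decide
  have s9 : (Equiv.swap (0 : Fin 3) 2) 2 = 0 := by decide
  simp only [Equiv.Perm.one_apply, Equiv.Perm.mul_apply, s1, s2, s3, s4, s5, s6, s7, s8, s9]
    at k1 k2 k3 k4 k5 k6
  have m01 := minors (A 1 0) (A 1 1) (A 1 2) (A 2 0) (A 2 1) (A 2 2)
    (by linear_combination k1) (by linear_combination k2) (by linear_combination k3)
    (by linear_combination k4) (by linear_combination k6) (by linear_combination k5)
  have m02 := minors (A 1 0) (A 1 2) (A 1 1) (A 2 0) (A 2 2) (A 2 1)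
    (by linear_combination k2) (by linear_combination k1) (by linear_combination k6)
    (by linear_combination k5) (by linear_combination k3) (by linear_combination k4)
  have m12 := minors (A 1 1) (A 1 2) (A 1 0) (A 2 1) (A 2 2) (A 2 0)
    (by linear_combination k4) (by linear_combination k3) (by linear_combination k5)
    (by linear_combination k6) (by linear_combination k1) (by linear_combination k2)
  apply hA
  rw [Matrix.det_fin_three]
  linear_combination A 0 0 * m12 - A 0 1 * m02 + A 0 2 * m01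

/-- an upper Hessenberg matrix with non-zero subdiagonal -/
lemma hessenberg {m : ℕ} (H : Matrix (Fin (m + 1)) (Fin (m + 1)) F)
    (h0 : ∀ i j : Fin (m + 1), (j : ℕ) + 1 < i → H i j = 0)
    (h1 : ∀ i j : Fin (m + 1), (i : ℕ) = j + 1 → H i j ≠ 0) :
    minpoly F H = H.charpoly := by
  apply cyc H (Pi.single 0 1)
  have key : ∀ k : ℕ, ∀ hk : k < m + 1,
      (∀ i : Fin (m + 1), k < (i : ℕ) → ((H ^ k) *ᵥ (Pi.single 0 1)) i = 0) ∧
      ((H ^ k) *ᵥ (Pi.single 0 1)) ⟨k, hk⟩ ≠ 0 := by
    intro k
    induction k with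
    | zero =>
      intro hk
      refine ⟨fun i hi => ?_, ?_⟩
      · have : i ≠ 0 := fun h => by rw [h] at hi; simp at hi
        simp [this]
      · simp
    | succ k ih =>
      intro hk
      obtain ⟨ih1, ih2⟩ := ih (by omega)
      have e : (H ^ (k + 1)) *ᵥ (Pi.single 0 1) = H *ᵥ ((H ^ k) *ᵥ (Pi.single 0 1)) := by
        rw [pow_succ', Matrix.mulVec_mulVec]
      rw [e]
      set w := (H ^ k) *ᵥ (Pi.single 0 1 : Fin (m + 1) → F) with hw
      refine ⟨fun i hi => ?_, ?_⟩
      · change ∑ j, H i j * w j = 0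
        apply Finset.sum_eq_zero
        intro j _
        by_cases hj : k < (j : ℕ)
        · rw [ih1 j hj, mul_zero]
        · rw [h0 i j (by omega), zero_mul]
      · change ∑ j, H ⟨k + 1, hk⟩ j * w j ≠ 0
        rw [Finset.sum_eq_single (⟨k, by omega⟩ : Fin (m + 1))]
        · exact mul_ne_zero (h1 _ _ rfl) ih2
        · intro j _ hj
          have hj' : (j : ℕ) ≠ k := fun h => hj (Fin.ext h)
          by_cases hjk : k < (j : ℕ)
          · rw [ih1 j hjk, mul_zero]
          · rw [h0 ⟨k + 1, hk⟩ j (by simp only; omega), zero_mul]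
        · intro h
          exact absurd (Finset.mem_univ _) h
  let K : Matrix (Fin (m + 1)) (Fin (m + 1)) F :=
    Matrix.of fun i => (H ^ (i : ℕ)) *ᵥ (Pi.single 0 1)
  have hK : K.det ≠ 0 := by
    have hlt : K.BlockTriangular OrderDual.toDual := by
      intro i j hij
      exact (key i i.2).1 j hij
    rw [Matrix.det_of_isLowerTriangular K hlt]
    apply Finset.prod_ne_zero_iff.2
    intro i _
    exact (key i i.2).2
  exact Matrix.linearIndependent_rows_of_det_ne_zero hK

lemma case_tri {n : ℕ} (A : Matrix (Fin n) (Fin n) F) (hA : A.det ≠ 0)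
    (ρ τ : Equiv.Perm (Fin n)) (h : ∀ i j : Fin n, j < i → A (ρ i) (τ j) = 0) :
    ∃ σ : Equiv.Perm (Fin n), minpoly F (A * σ.permMatrix F) = (A * σ.permMatrix F).charpoly := by
  rcases n with _ | m
  · refine ⟨1, ?_⟩
    apply cyc _ 0
    exact linearIndependent_empty_type
  · set c : Equiv.Perm (Fin (m + 1)) := finRotate (m + 1) with hc
    refine ⟨(ρ.symm.trans (c.trans τ))⁻¹, ?_⟩
    set M := A * ((ρ.symm.trans (c.trans τ))⁻¹ : Equiv.Perm (Fin (m + 1))).permMatrix F with hM
    -- the diagonal of the triangular form is non-zero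
    have hdiag : ∀ i, A (ρ i) (τ i) ≠ 0 := by
      intro i hi
      have hT : (A.submatrix ρ τ).BlockTriangular id := fun i j hij => h i j hij
      have h1 : (A.submatrix ρ τ).det = ∏ i, A (ρ i) (τ i) := Matrix.det_of_isUpperTriangular hT
      have h2 : (A.submatrix ρ τ).det = 0 := by
        rw [h1]; exact Finset.prod_eq_zero (Finset.mem_univ i) hi
      have h3 : A.submatrix ρ τ = (A.submatrix ρ id).submatrix id τ := rfl
      rw [h3, Matrix.det_permute', Matrix.det_permute] at h2
      rcases mul_eq_zero.1 h2 with h4 | h4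
      · rcases Int.units_eq_one_or τ.sign with h5 | h5 <;> simp [h5] at h4
      · rcases mul_eq_zero.1 h4 with h5 | h5
        · rcases Int.units_eq_one_or ρ.sign with h6 | h6 <;> simp [h6] at h5
        · exact hA h5
    have hMapp : ∀ i j, M (ρ i) (ρ j) = A (ρ i) (τ (c j)) := by
      intro i j
      rw [hM, mul_perm_apply]
      simp
    have hH : minpoly F (M.submatrix ρ ρ) = (M.submatrix ρ ρ).charpoly := by
      apply hessenberg
      · intro i j hij
        change M (ρ i) (ρ j) = 0
        rw [hMapp]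
        apply h
        have hj : (j : ℕ) < m := by have := i.2; omega
        rw [Fin.lt_def, hc, finRotate_of_lt hj]
        exact hij
      · intro i j hij
        change M (ρ i) (ρ j) ≠ 0
        have hj : (j : ℕ) < m := by have := i.2; omega
        have hci : c j = i := by
          rw [hc, finRotate_of_lt hj]
          exact Fin.ext hij.symm
        rw [hMapp, hci]
        exact hdiag i
    have e : M.submatrix ρ ρ = Matrix.reindexAlgEquiv F F ρ.symm M := rfl
    rw [e, minpoly.algEquiv_eq] at hH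
    rw [hH]
    exact Matrix.charpoly_reindex ρ.symm M

/-- Q1 for `n ≤ 3`, and for every `n` when `A` is upper triangular up to a permutation of the
rows and a permutation of the columns. -/
theorem result : ∀ (F : Type) [Field F] (n : ℕ) (A : Matrix (Fin n) (Fin n) F), A.det ≠ 0 →
    (n ≤ 3 ∨ ∃ ρ τ : Equiv.Perm (Fin n), ∀ i j : Fin n, j < i → A (ρ i) (τ j) = 0) →
      ∃ σ : Equiv.Perm (Fin n),
        minpoly F (A * σ.permMatrix F) = (A * σ.permMatrix F).charpoly := by
  intro F _ n A hA h
  rcases h with h | ⟨ρ, τ, h⟩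
  · rcases Nat.lt_or_ge n 3 with h3 | h3
    · by_cases h2 : n = 2
      · subst h2
        by_cases h10 : A 1 0 = 0
        · refine case_tri A hA 1 1 fun i j hij => ?_
          have hi : i = 1 := by omega
          have hj : j = 0 := by omega
          rw [hi, hj]
          exact h10
        · refine ⟨1⁻¹, ?_⟩
          apply hessenberg
          · intro i j hij
            exfalso
            omega
          · intro i j hij
            rw [mul_perm_apply]
            have hi2 := i.2
            have hj2 := j.2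
            have hi : i = (1 : Fin 2) := Fin.ext (by change (i : ℕ) = 1; omega)
            have hj : j = (0 : Fin 2) := Fin.ext (by change (j : ℕ) = 0; omega)
            rw [hi, hj]
            exact h10
      · refine case_tri A hA 1 1 fun i j hij => ?_
        exfalso
        omega
    · obtain rfl : n = 3 := le_antisymm h h3
      exact case3 A hA
  · exact case_tri A hA ρ τ h

end Pool.Agent.Results.MP_dd2eb3_al.SmallOrTriangular
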